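import Pool.Agent.Y586.OD.Defs
import Pool.Agent.H547S1.T_PAF
import Pool.Agent.H547S1.T_TRP

/-!
# No public-key encryption with decryption over affine gates
-/

set_option autoImplicit false

namespace Pool.Agent.Y195.OD

open Pool.Agent.H547R6 Pool.Agent.H547R7 Pool.Agent.H547R8 Pool.Agent.NPC
open Pool.Agent.H583R2 Pool.Agent.H545R2.KS Pool.Agent.H547S1 Pool.Agent.Y586.OD

/-! ### averages -/

/-- average -/
noncomputable def av {Ω : Type} [Fintype Ω] (f : Ω → ℝ) : ℝ := (∑ x, f x) / Fintype.card Ω

/-- indicator -/
noncomputable def ind (b : Bool) : ℝ := if b = true then 1 else 0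

theorem ind_nonneg (b : Bool) : 0 ≤ ind b := by
  unfold ind; split_ifs <;> norm_num

theorem ind_le (b : Bool) : ind b ≤ 1 := by
  unfold ind; split_ifs <;> norm_num

theorem pr_av {Ω : Type} [Fintype Ω] (p : Ω → Bool) : pr p = av fun x => ind (p x) := by
  unfold pr av ind
  rw [Finset.card_filter]
  push_cast
  rfl

theorem av_prod {α β : Type} [Fintype α] [Fintype β] (f : α × β → ℝ) :
    av f = av fun a => av fun b => f (a, b) := by
  unfold av
  rw [Fintype.sum_prod_type, Fintype.card_prod, ← Finset.sum_div, div_div]
  push_cast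
  rw [mul_comm (Fintype.card β : ℝ)]

theorem av_mono {α : Type} [Fintype α] {f g : α → ℝ} (h : ∀ a, f a ≤ g a) : av f ≤ av g := by
  unfold av
  exact div_le_div_of_nonneg_right (Finset.sum_le_sum fun a _ => h a) (Nat.cast_nonneg _)

theorem av_const {α : Type} [Fintype α] [Nonempty α] (c : ℝ) : av (fun _ : α => c) = c := by
  unfold av
  rw [Finset.sum_const, Finset.card_univ, nsmul_eq_mul]
  have : (Fintype.card α : ℝ) ≠ 0 := by exact_mod_cast Fintype.card_ne_zero
  field_simp

theorem av_add {α : Type} [Fintype α] (f g : α → ℝ) :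
    av (fun a => f a + g a) = av f + av g := by
  unfold av
  rw [Finset.sum_add_distrib, add_div]

theorem av_mul {α : Type} [Fintype α] (c : ℝ) (f : α → ℝ) :
    av (fun a => c * f a) = c * av f := by
  unfold av
  rw [← Finset.mul_sum]
  ring

theorem av_sum {α ι : Type} [Fintype α] [Fintype ι] (f : ι → α → ℝ) :
    av (fun a => ∑ i, f i a) = ∑ i, av (f i) := by
  unfold av
  rw [Finset.sum_comm, Finset.sum_div]

theorem av_equiv {α β : Type} [Fintype α] [Fintype β] (φ : α ≃ β) (f : β → ℝ) :
    av (fun x => f (φ x)) = av f := by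
  unfold av
  rw [Fintype.card_congr φ, Equiv.sum_comp φ f]

/-- a function of one of many coordinates -/
theorem av_coord {Ω : Type} [Fintype Ω] [Nonempty Ω] {m : ℕ} (i : Fin m) (f : Ω → ℝ) :
    av (fun z : Fin m → Ω => f (z i)) = av f := by
  have h := av_equiv (Equiv.funSplitAt i Ω) (fun w : Ω × ({j // j ≠ i} → Ω) => f w.1)
  have e : (fun z : Fin m → Ω => f ((Equiv.funSplitAt i Ω) z).1) = fun z => f (z i) := by
    funext z
    simp [Equiv.funSplitAt, Equiv.piSplitAt]
  rw [e] at h
  rw [h, av_prod]
  congr 1
  funext a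
  exact av_const (α := ({j // j ≠ i} → Ω)) (f a)

/-! ### exchangeability -/

theorem t_EXC : S_EXC := by
  intro Ω _ _ m D p hp
  have h1 : ∀ i : Fin (m + 1), pr (fun w : Ω × (Fin m → Ω) => p w.1 w.2) =
      av fun z : Fin (m + 1) → Ω => ind (p (z i) (fun j => z (i.succAbove j))) := by
    intro i
    rw [pr_av]
    have h := av_equiv (Fin.insertNthEquiv (fun _ : Fin (m + 1) => Ω) i).symm
      (fun w : Ω × (Fin m → Ω) => ind (p w.1 w.2))
    rw [← h]
    rfl
  have h2 : ((m + 1 : ℕ) : ℝ) * pr (fun w : Ω × (Fin m → Ω) => p w.1 w.2) ≤ D := by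
    have h3 : ∑ _i : Fin (m + 1), pr (fun w : Ω × (Fin m → Ω) => p w.1 w.2) =
        ((m + 1 : ℕ) : ℝ) * pr (fun w : Ω × (Fin m → Ω) => p w.1 w.2) := by
      rw [Finset.sum_const, Finset.card_univ, Fintype.card_fin, nsmul_eq_mul]
    rw [← h3, Finset.sum_congr rfl fun i _ => h1 i, ← av_sum]
    refine (av_mono (g := fun _ => (D : ℝ)) fun z => ?_).trans (av_const _).le
    have h4 := hp z
    rw [Finset.card_filter] at h4
    have h5 : ∑ i : Fin (m + 1), ind (p (z i) (fun j => z (i.succAbove j))) =
        ((∑ i : Fin (m + 1), if p (z i) (fun j => z (i.succAbove j)) = true then 1 else 0 : ℕ) :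
          ℝ) := by
      push_cast
      rfl
    rw [h5]
    exact_mod_cast h4
  rw [le_div_iff₀ (by positivity)]
  push_cast at h2
  linarith

/-! ### linear algebra -/

/-- a list of bits as a vector -/
def vz (M : ℕ) (l : List Bool) : Fin M → ZMod 2 := fun j => if l.getD j.val false then 1 else 0

theorem vz_xorL {M : ℕ} {u v : List Bool} (hu : u.length = M) (hv : v.length = M) :
    vz M (xorL u v) = vz M u + vz M v := by
  funext j
  simp only [vz, Pi.add_apply]
  rw [PAF_getD_xorL hu hv]
  cases u.getD j.val false <;> cases v.getD j.val false <;> decide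

theorem gr {M j : ℕ} (h : j < M) : (List.replicate M false).getD j false = false := by
  rw [List.getD_replicate]
  exact h

theorem vz_rep (M : ℕ) : vz M (List.replicate M false) = 0 := by
  funext j
  simp only [vz, Pi.zero_apply]
  rw [gr j.2]
  rfl

theorem vz_inj {M : ℕ} {u v : List Bool} (hu : u.length = M) (hv : v.length = M)
    (h : vz M u = vz M v) : u = v := by
  apply PAF_ext hu hv
  intro j hj
  have := congrFun h ⟨j, hj⟩
  simp only [vz] at this
  revert this
  cases u.getD j false <;> cases v.getD j false <;> simp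

theorem comb_len (M : ℕ) : ∀ (c : List Bool) (vs : List (List Bool)),
    (∀ v ∈ vs, v.length = M) → (comb M c vs).length = M := by
  intro c
  induction c with
  | nil => intro vs _; simp [comb]
  | cons b c ih =>
    intro vs hvs
    cases vs with
    | nil => simp [comb]
    | cons v vs =>
      have h1 := ih vs fun w hw => hvs w (List.mem_cons_of_mem _ hw)
      unfold comb
      cases b
      · exact h1
      · exact PAF_len_xorL (hvs v List.mem_cons_self) h1

theorem vz_comb (M : ℕ) : ∀ (N : ℕ) (c : Fin N → ZMod 2) (vs : Fin N → List Bool),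
    (∀ i, (vs i).length = M) →
    vz M (comb M (List.ofFn fun j => decide (c j = 1)) (List.ofFn vs)) =
      ∑ j, c j • vz M (vs j) := by
  intro N
  induction N with
  | zero =>
    intro c vs _
    rw [List.ofFn_zero, List.ofFn_zero]
    simp only [comb, Finset.univ_eq_empty, Finset.sum_empty]
    exact vz_rep M
  | succ N ih =>
    intro c vs hvs
    rw [List.ofFn_succ, List.ofFn_succ, Fin.sum_univ_succ]
    have h1 := ih (fun i => c i.succ) (fun i => vs i.succ) fun i => hvs _
    have hl : (comb M (List.ofFn fun j : Fin N => decide (c j.succ = 1))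
        (List.ofFn fun i : Fin N => vs i.succ)).length = M := by
      apply comb_len
      intro v hv
      rw [List.mem_ofFn] at hv
      obtain ⟨i, rfl⟩ := hv
      exact hvs _
    have h2 : ∀ x : ZMod 2, x = 0 ∨ x = 1 := by decide
    unfold comb
    rcases h2 (c 0) with h | h
    · rw [h]
      have e : decide ((0 : ZMod 2) = 1) = false := by decide
      rw [e, cond_false, h1, zero_smul, zero_add]
    · rw [h]
      have e : decide ((1 : ZMod 2) = 1) = true := by decide
      rw [e, cond_true, vz_xorL (hvs 0) hl, h1, one_smul]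

/-- at most `M` of the vectors are not in the span of the others -/
theorem few_bad (h3 : S_LN1) (M N : ℕ) (v : Fin (N + 1) → List Bool)
    (hv : ∀ i, (v i).length = M) :
    (Finset.univ.filter fun i : Fin (N + 1) =>
      (!(solveL (List.ofFn fun j => v (i.succAbove j)) (v i)).isSome) = true).card ≤ M := by
  classical
  have hbad : ∀ i : Fin (N + 1),
      (!(solveL (List.ofFn fun j => v (i.succAbove j)) (v i)).isSome) = true →
      vz M (v i) ∉ Submodule.span (ZMod 2) (Set.range fun j : Fin N => vz M (v (i.succAbove j))) := by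
    intro i hi hmem
    rw [Submodule.mem_span_range_iff_exists_fun] at hmem
    obtain ⟨c, hc⟩ := hmem
    have h1 := vz_comb M N c (fun j => v (i.succAbove j)) fun j => hv _
    rw [hc] at h1
    have hvs : ∀ w ∈ List.ofFn fun j : Fin N => v (i.succAbove j), w.length = M := by
      intro w hw
      rw [List.mem_ofFn] at hw
      obtain ⟨j, rfl⟩ := hw
      exact hv _
    have h2 := vz_inj (comb_len M _ _ hvs) (hv i) h1
    have h4 : solveL (List.ofFn fun j => v (i.succAbove j)) (v i) = none := by
      cases hs : solveL (List.ofFn fun j => v (i.succAbove j)) (v i) with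
      | none => rfl
      | some c => rw [hs] at hi; simp at hi
    exact (h3 M _ _ hvs (hv i)).2 h4 _ (by rw [List.length_ofFn, List.length_ofFn]) h2
  set I := Finset.univ.filter fun i : Fin (N + 1) =>
    (!(solveL (List.ofFn fun j => v (i.succAbove j)) (v i)).isSome) = true with hI
  have hli : LinearIndependent (ZMod 2) (fun i : {i // i ∈ I} => vz M (v i.1)) := by
    rw [linearIndependent_iff_notMem_span]
    rintro ⟨i, hi⟩ hmem
    refine hbad i (Finset.mem_filter.1 hi).2 (Submodule.span_mono ?_ hmem)
    rintro _ ⟨⟨j, hj⟩, hji, rfl⟩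
    have hne : j ≠ i := by
      rintro rfl
      exact hji.2 rfl
    obtain ⟨k, hk⟩ := Fin.exists_succAbove_eq hne
    exact ⟨k, by simp only [hk]⟩
  have h5 := hli.fintype_card_le_finrank
  rw [Module.finrank_fin_fun, Fintype.card_coe] at h5
  exact h5

/-- affine functions on the span -/
theorem comb_aff (L : ℕ) (D : List Bool → Bool)
    (hD : ∀ u v w : List Bool, u.length = L → v.length = L → w.length = L →
      D (xorL u (xorL v w)) = xor (D u) (xor (D v) (D w))) :
    ∀ (xs : List (List Bool)), (∀ x ∈ xs, x.length = L ∧ D x = true) → ∀ a : List Bool,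
    ∃ b y, comb (L + 1) a (xs.map fun x => true :: x) = b :: y ∧ y.length = L ∧
      D y = (if b = true then true else D (List.replicate L false)) := by
  have h0 : ∃ b y, List.replicate (L + 1) false = b :: y ∧ y.length = L ∧
      D y = (if b = true then true else D (List.replicate L false)) :=
    ⟨false, List.replicate L false, List.replicate_succ, List.length_replicate, by simp⟩
  intro xs
  induction xs with
  | nil =>
    intro _ a
    cases a with
    | nil => simpa [comb] using h0
    | cons b a => simpa [comb] using h0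
  | cons x xs ih =>
    intro hx a
    cases a with
    | nil => simpa [comb] using h0
    | cons e a =>
      obtain ⟨b, y, h1, h2, h4⟩ := ih (fun w hw => hx w (List.mem_cons_of_mem _ hw)) a
      obtain ⟨hxl, hxD⟩ := hx x List.mem_cons_self
      rw [List.map_cons]
      unfold comb
      cases e
      · exact ⟨b, y, h1, h2, h4⟩
      · rw [cond_true, h1]
        refine ⟨!b, xorL x y, ?_, PAF_len_xorL hxl h2, ?_⟩
        · unfold xorL
          rw [List.zipWith_cons_cons, Bool.true_xor]
        · have hz : xorL y (List.replicate L false) = y := by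
            apply PAF_ext (PAF_len_xorL h2 List.length_replicate) h2
            intro j hj
            rw [PAF_getD_xorL h2 List.length_replicate, gr hj, Bool.xor_false]
          have h5 := hD x y (List.replicate L false) hxl h2 List.length_replicate
          rw [hz, hxD, h4] at h5
          rw [h5]
          cases b <;> cases D (List.replicate L false) <;> rfl

theorem aff_none (h3 : S_LN1) (L : ℕ) (D : List Bool → Bool)
    (hD : ∀ u v w : List Bool, u.length = L → v.length = L → w.length = L →
      D (xorL u (xorL v w)) = xor (D u) (xor (D v) (D w)))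
    (N : ℕ) (x : Fin N → List Bool) (hx : ∀ i, (x i).length = L) (c : List Bool)
    (hc : c.length = L) (h1 : ∀ i, D (x i) = true) (h2 : D c = false) :
    (solveL (List.ofFn fun i => true :: x i) (true :: c)).isSome = false := by
  cases hs : solveL (List.ofFn fun i => true :: x i) (true :: c) with
  | none => rfl
  | some a =>
    exfalso
    have hvs : ∀ w ∈ List.ofFn fun i : Fin N => true :: x i, w.length = L + 1 := by
      intro w hw
      rw [List.mem_ofFn] at hw
      obtain ⟨i, rfl⟩ := hw
      rw [List.length_cons, hx]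
    have h4 := ((h3 (L + 1) _ _ hvs (by rw [List.length_cons, hc])).1 a hs).2
    have e : (List.ofFn fun i : Fin N => true :: x i) = (List.ofFn x).map fun x => true :: x := by
      rw [List.map_ofFn]
      rfl
    rw [e] at h4
    obtain ⟨b, y, h5, h6, h7⟩ := comb_aff L D hD (List.ofFn x) (by
      intro w hw
      rw [List.mem_ofFn] at hw
      obtain ⟨i, rfl⟩ := hw
      exact ⟨hx i, h1 i⟩) a
    rw [h5] at h4
    obtain ⟨rfl, rfl⟩ := List.cons.inj h4
    rw [h2] at h7
    simp at h7

/-! ### the adversary -/

/-- block number `i` of length `E` -/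
def bl (E i : ℕ) (w : List Bool) : List Bool := (w.drop (i * E)).take E

/-- encryptions of one, with a leading one -/
def vsD (S : Scheme) (n : ℕ) (pk w : List Bool) : List (List Bool) :=
  (List.range (4 * (S.len.eval n + 1))).map fun i =>
    true :: PAF_ct S n pk true (bl (S.e.eval n) i w)

/-- acceptance -/
def accD (S : Scheme) (n : ℕ) (pk c w : List Bool) : Bool :=
  (solveL (vsD S n pk w) (true :: c)).isSome

/-- the adversary -/
def AD (S : Scheme) (z : List Bool) : List Bool :=
  if accD S (spl z).1.length (spl (spl z).2).1 (spl (spl (spl z).2).2).1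
    (spl (spl (spl z).2).2).2 then [true] else []

theorem AD_eq (S : Scheme) (n : ℕ) (pk c w : List Bool) :
    decide (AD S (c4 (ones n) pk c w) = [true]) = accD S n pk c w := by
  unfold AD c4
  rw [spl_pairBits, spl_pairBits, spl_pairBits]
  have : (ones n).length = n := List.length_replicate
  simp only [this]
  cases accD S n pk c w <;> simp

section pf
variable {α : Type} [H583R2.TEnc α]

theorem pf_bl {E i : α → ℕ} {w : α → List Bool} (hE : PF E) (hi : PF i) (hw : PF w) :
    PF (fun a => bl (E a) (i a) (w a)) := by
  unfold bl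
  exact PF.take hE (PF.drop (PF.mul hi hE) hw)

theorem pf_vsD {S : Scheme} (hS : PolyTime S.enc) {n : α → ℕ} {pk w : α → List Bool}
    (hn : PF n) (hpk : PF pk) (hw : PF w) : PF (fun a => vsD S (n a) (pk a) (w a)) := by
  unfold vsD
  refine PF.map (f := fun a i => true :: PAF_ct S (n a) (pk a) true (bl (S.e.eval (n a)) i (w a)))
    (PF.range (PF.mul (PF.const 4) (PF.add (pf_eval hn S.len) (PF.const 1)))) ?_
  exact PF.cons (PF.const true) (PAF_pf_ct hS (hn.comp PF.fst) (hpk.comp PF.fst) true
    (pf_bl (pf_eval (hn.comp PF.fst) S.e) PF.snd (hw.comp PF.fst)))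

theorem pf_accD {S : Scheme} (h4 : S_LN2) (hS : PolyTime S.enc) {n : α → ℕ}
    {pk c w : α → List Bool} (hn : PF n) (hpk : PF pk) (hc : PF c) (hw : PF w) :
    PF (fun a => accD S (n a) (pk a) (c a) (w a)) := by
  unfold accD
  exact PF.isSome (PF.comp₂ h4 (pf_vsD hS hn hpk hw) (PF.cons (PF.const true) hc))

end pf

theorem AD_poly {S : Scheme} (h4 : S_LN2) (hS : PolyTime S.enc) : PolyTime (AD S) := by
  apply polyTime_of_pf
  unfold AD
  have h1 : PF (fun z : List Bool => spl z) := PF.spl PF.id
  have h2 : PF (fun z : List Bool => spl (spl z).2) := PF.spl (PF.snd' h1)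
  have h3 : PF (fun z : List Bool => spl (spl (spl z).2).2) := PF.spl (PF.snd' h2)
  exact PF.ite (pf_accD h4 hS (PF.length (PF.fst' h1)) (PF.fst' h2) (PF.fst' h3) (PF.snd' h3))
    (PF.const [true]) (PF.const [])

/-! ### probabilities -/

/-- the blocks put together -/
def fl {m E : ℕ} (ys : Fin m → Fin E → Bool) : Fin (m * E) → Bool :=
  fun j => ys (finProdFinEquiv.symm j).1 (finProdFinEquiv.symm j).2

/-- strings and their blocks -/
def flE (m E : ℕ) : (Fin m → Fin E → Bool) ≃ (Fin (m * E) → Bool) where
  toFun := fl
  invFun := fun x i j => x (finProdFinEquiv (i, j))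
  left_inv := fun ys => by funext i j; simp [fl]
  right_inv := fun x => by
    funext j
    show x (finProdFinEquiv ((finProdFinEquiv.symm j).1, (finProdFinEquiv.symm j).2)) = x j
    rw [Prod.mk.eta, Equiv.apply_symm_apply]

theorem bl_fl {m E : ℕ} (ys : Fin m → Fin E → Bool) (i : Fin m) :
    bl E i.val (List.ofFn (fl ys)) = List.ofFn (ys i) := by
  have h0 : (i.val + 1) * E ≤ m * E := Nat.mul_le_mul_right _ i.2
  rw [add_mul, one_mul] at h0
  unfold bl
  apply List.ext_getElem
  · rw [List.length_take, List.length_drop, List.length_ofFn, List.length_ofFn]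
    omega
  · intro k h1 h2
    rw [List.length_ofFn] at h2
    rw [List.getElem_take, List.getElem_drop, List.getElem_ofFn, List.getElem_ofFn]
    unfold fl
    have e : finProdFinEquiv.symm (⟨i.val * E + k, by omega⟩ : Fin (m * E)) =
        (i, (⟨k, h2⟩ : Fin E)) := by
      rw [Equiv.symm_apply_eq]
      apply Fin.ext
      simp only [finProdFinEquiv_apply_val]
      ring
    rw [e]

theorem acp_eq (S : Scheme) (A : List Bool → List Bool) (t : Polynomial ℕ) (n m : ℕ) (b : Bool)
    (ht : t.eval n = m * S.e.eval n) :
    S.acp A t n b = av fun s : Fin (S.g.eval n) → Bool => av fun r : Fin (S.e.eval n) → Bool =>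
      av fun ys : Fin m → Fin (S.e.eval n) → Bool =>
        ind (decide (A (c4 (ones n) (S.pk (pairBits (ones n) (List.ofFn s)))
          (S.ct n (List.ofFn s) b (List.ofFn r)) (List.ofFn (fl ys))) = [true])) := by
  have key : ∀ T : ℕ, T = m * S.e.eval n →
      ∀ F : (Fin (S.g.eval n) → Bool) → (Fin (S.e.eval n) → Bool) → List Bool → Bool,
      pr (fun w : (Fin (S.g.eval n) → Bool) × (Fin (S.e.eval n) → Bool) × (Fin T → Bool) =>
        F w.1 w.2.1 (List.ofFn w.2.2)) =
      av fun s => av fun r => av fun ys : Fin m → Fin (S.e.eval n) → Bool =>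
        ind (F s r (List.ofFn (fl ys))) := by
    rintro T rfl F
    rw [pr_av, av_prod]
    congr 1
    funext s
    rw [av_prod]
    congr 1
    funext r
    exact (av_equiv (flE m (S.e.eval n)) (fun x => ind (F s r (List.ofFn x)))).symm
  exact key _ ht fun s r w => decide (A (c4 (ones n) (S.pk (pairBits (ones n) (List.ofFn s)))
          (S.ct n (List.ofFn s) b (List.ofFn r)) w) = [true])

theorem vsD_eq (S : Scheme) (n : ℕ) (s : List Bool)
    (ys : Fin (4 * (S.len.eval n + 1)) → Fin (S.e.eval n) → Bool) :
    vsD S n (S.pk (pairBits (ones n) s)) (List.ofFn (fl ys)) =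
      List.ofFn fun i => true :: S.ct n s true (List.ofFn (ys i)) := by
  unfold vsD
  apply List.ext_getElem
  · rw [List.length_map, List.length_range, List.length_ofFn]
  · intro k h1 h2
    rw [List.length_ofFn] at h2
    simp only [List.getElem_map, List.getElem_range, List.getElem_ofFn]
    have h3 := bl_fl ys ⟨k, h2⟩
    simp only at h3
    rw [h3]
    rfl

/-- the decryption -/
noncomputable def dl (S : Scheme) (n : ℕ) (s v : List Bool) : Bool :=
  decide (S.dec (c3 (ones n) (S.sk (pairBits (ones n) s)) v) = [true])

theorem getD_ofFn' {L j : ℕ} (f : Fin L → Bool) (hj : j < L) :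
    (List.ofFn f).getD j false = f ⟨j, hj⟩ := by
  rw [List.getD_eq_getElem _ _ (by rw [List.length_ofFn]; exact hj), List.getElem_ofFn]

theorem dl_aff (h1 : S_GL3) {B : Set BFun} (hB : B ⊆ Aff) (S : Scheme) (q n : ℕ)
    (s : List Bool)
    (hC : Computes B (S.len.eval n) q fun z => dl S n s (List.ofFn z))
    (u v w : List Bool) (hu : u.length = S.len.eval n) (hv : v.length = S.len.eval n)
    (hw : w.length = S.len.eval n) :
    dl S n s (xorL u (xorL v w)) = xor (dl S n s u) (xor (dl S n s v) (dl S n s w)) := by
  have h := h1 B Aff (Or.inl rfl) hB _ _ _ hC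
  have e : ∀ u : List Bool, u.length = S.len.eval n →
      u = List.ofFn fun i : Fin (S.len.eval n) => u.getD i.val false := by
    intro u hu
    apply List.ext_getElem (by rw [hu, List.length_ofFn])
    intro j h1 h2
    rw [List.getElem_ofFn, List.getD_eq_getElem _ _ h1]
  have h4 := h (fun i => u.getD i.val false) (fun i => v.getD i.val false)
    (fun i => w.getD i.val false)
  simp only at h4
  rw [← e u hu, ← e v hv, ← e w hw] at h4
  rw [← h4]
  congr 1
  apply PAF_ext (PAF_len_xorL hu (PAF_len_xorL hv hw)) List.length_ofFn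
  intro j hj
  rw [PAF_getD_xorL hu (PAF_len_xorL hv hw), PAF_getD_xorL hv hw, getD_ofFn' _ hj]

theorem ind_not (b : Bool) : ind b = 1 - ind (!b) := by
  unfold ind
  cases b <;> norm_num

/-- acceptance of encryptions of one -/
theorem acp_true (h3 : S_LN1) (S : Scheme) (n : ℕ) (t : Polynomial ℕ)
    (ht : t.eval n = (4 * (S.len.eval n + 1)) * S.e.eval n) :
    3 / 4 ≤ S.acp (AD S) t n true := by
  rw [acp_eq S (AD S) t n (4 * (S.len.eval n + 1)) true ht]
  refine (av_const (α := Fin (S.g.eval n) → Bool) (3 / 4 : ℝ)).symm.le.trans (av_mono fun s => ?_)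
  set L := S.len.eval n with hL
  have hexc := t_EXC (Fin (S.e.eval n) → Bool) (4 * (L + 1)) (L + 1)
    (fun x ys => !(solveL (List.ofFn fun j => true :: S.ct n (List.ofFn s) true (List.ofFn (ys j)))
      (true :: S.ct n (List.ofFn s) true (List.ofFn x))).isSome) (fun z =>
        few_bad h3 (L + 1) (4 * (L + 1))
          (fun i => true :: S.ct n (List.ofFn s) true (List.ofFn (z i)))
          (fun i => by rw [List.length_cons, Scheme.ct, PAF_len_fit]))
  rw [pr_av, av_prod] at hexc
  have e : ∀ (r : Fin (S.e.eval n) → Bool) (ys : Fin (4 * (L + 1)) → Fin (S.e.eval n) → Bool),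
      ind (decide (AD S (c4 (ones n) (S.pk (pairBits (ones n) (List.ofFn s)))
          (S.ct n (List.ofFn s) true (List.ofFn r)) (List.ofFn (fl ys))) = [true])) =
      1 + (-1) * ind (!(solveL (List.ofFn fun j => true :: S.ct n (List.ofFn s) true (List.ofFn (ys j)))
      (true :: S.ct n (List.ofFn s) true (List.ofFn r))).isSome) := by
    intro r ys
    rw [AD_eq]
    unfold accD
    rw [vsD_eq, ind_not]
    ring
  simp only [e]
  simp only [av_add, av_const, av_mul]
  have h5 : ((L + 1 : ℕ) : ℝ) / (((4 * (L + 1) : ℕ) : ℝ) + 1) ≤ 1 / 4 := by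
    rw [div_le_div_iff₀ (by positivity) (by norm_num)]
    push_cast
    have : (0 : ℝ) ≤ L := Nat.cast_nonneg _
    linarith
  have h6 := hexc.trans h5
  simp only at h6
  linarith

/-- acceptance of encryptions of zero -/
theorem acp_false (h1 : S_GL3) (h3 : S_LN1) {B : Set BFun} (hB : B ⊆ Aff) (S : Scheme) (q n : ℕ)
    (hC : ∀ s : List Bool, s.length = S.g.eval n →
      Computes B (S.len.eval n) q fun z => dl S n s (List.ofFn z)) (t : Polynomial ℕ)
    (ht : t.eval n = (4 * (S.len.eval n + 1)) * S.e.eval n) :
    S.acp (AD S) t n false ≤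
      S.err n false + ((4 * (S.len.eval n + 1) : ℕ) : ℝ) * S.err n true := by
  rw [acp_eq S (AD S) t n (4 * (S.len.eval n + 1)) false ht]
  set L := S.len.eval n with hL
  set wr : Bool → (Fin (S.g.eval n) → Bool) → (Fin (S.e.eval n) → Bool) → ℝ := fun b s r =>
    ind (decide (S.dec (c3 (ones n) (S.sk (pairBits (ones n) (List.ofFn s)))
      (S.ct n (List.ofFn s) b (List.ofFn r))) ≠ [b])) with hwr
  have herr : ∀ b, S.err n b = av fun s => av fun r => wr b s r := by
    intro b
    unfold Scheme.err
    rw [pr_av, av_prod]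
  have hpt : ∀ (s : Fin (S.g.eval n) → Bool) (r : Fin (S.e.eval n) → Bool)
      (ys : Fin (4 * (L + 1)) → Fin (S.e.eval n) → Bool),
      ind (decide (AD S (c4 (ones n) (S.pk (pairBits (ones n) (List.ofFn s)))
          (S.ct n (List.ofFn s) false (List.ofFn r)) (List.ofFn (fl ys))) = [true])) ≤
      wr false s r + ∑ i, wr true s (ys i) := by
    intro s r ys
    have hnn : ∀ b s r, 0 ≤ wr b s r := fun b s r => ind_nonneg _
    by_cases hf : wr false s r = 0
    · by_cases htr : ∃ i, wr true s (ys i) ≠ 0
      · obtain ⟨i, hi⟩ := htr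
        have h5 : wr true s (ys i) = 1 := by
          simp only [hwr] at hi ⊢
          unfold ind at hi ⊢
          split_ifs with h
          · rfl
          · rw [if_neg h] at hi
            exact absurd rfl hi
        have h6 : wr true s (ys i) ≤ ∑ i, wr true s (ys i) :=
          Finset.single_le_sum (f := fun i => wr true s (ys i)) (fun i _ => hnn _ _ _)
            (Finset.mem_univ i)
        have := ind_le (decide (AD S (c4 (ones n) (S.pk (pairBits (ones n) (List.ofFn s)))
          (S.ct n (List.ofFn s) false (List.ofFn r)) (List.ofFn (fl ys))) = [true]))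
        have := hnn false s r
        linarith
      · push Not at htr
        have h7 : accD S n (S.pk (pairBits (ones n) (List.ofFn s)))
            (S.ct n (List.ofFn s) false (List.ofFn r)) (List.ofFn (fl ys)) = false := by
          unfold accD
          rw [vsD_eq]
          refine aff_none h3 L (dl S n (List.ofFn s))
            (dl_aff h1 hB S q n (List.ofFn s) (hC _ List.length_ofFn)) _ _
            (fun i => PAF_len_fit _ _) _ (PAF_len_fit _ _) (fun i => ?_) ?_
          · have := htr i
            simp only [hwr] at this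
            unfold ind at this
            unfold dl
            by_contra hcon
            rw [if_pos] at this
            · exact one_ne_zero this
            · exact decide_eq_true fun h => hcon (decide_eq_true h)
          · simp only [hwr] at hf
            unfold ind at hf
            unfold dl
            by_contra hcon
            rw [if_pos] at hf
            · exact one_ne_zero hf
            · rw [Bool.not_eq_false] at hcon
              rw [of_decide_eq_true hcon]
              decide
        rw [AD_eq, h7]
        have h8 : 0 ≤ ∑ i, wr true s (ys i) := Finset.sum_nonneg fun i _ => hnn _ _ _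
        have := hnn false s r
        unfold ind
        simp only [Bool.false_eq_true, if_false]
        linarith
    · have h5 : wr false s r = 1 := by
        simp only [hwr] at hf ⊢
        unfold ind at hf ⊢
        split_ifs with h
        · rfl
        · rw [if_neg h] at hf
          exact absurd rfl hf
      have h8 : 0 ≤ ∑ i, wr true s (ys i) := Finset.sum_nonneg fun i _ => hnn _ _ _
      have := ind_le (decide (AD S (c4 (ones n) (S.pk (pairBits (ones n) (List.ofFn s)))
          (S.ct n (List.ofFn s) false (List.ofFn r)) (List.ofFn (fl ys))) = [true]))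
      linarith
  refine (av_mono fun s => av_mono fun r => av_mono fun ys => hpt s r ys).trans (le_of_eq ?_)
  have e1 : ∀ s r, av (fun ys : Fin (4 * (L + 1)) → Fin (S.e.eval n) → Bool =>
      wr false s r + ∑ i, wr true s (ys i)) =
      wr false s r + ((4 * (L + 1) : ℕ) : ℝ) * av fun r => wr true s r := by
    intro s r
    rw [av_add, av_const, av_sum]
    congr 1
    rw [Finset.sum_congr rfl fun i _ => av_coord i (fun x => wr true s x), Finset.sum_const,
      Finset.card_univ, Fintype.card_fin, nsmul_eq_mul]
  simp only [e1, av_add, av_const]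
  rw [herr, herr]
  congr 1
  unfold av
  rw [← Finset.mul_sum]
  ring

theorem t_DNA (h0 : S_NEG) (h1 : S_GL3) (h3 : S_LN1) (h4 : S_LN2) : S_DNA := by
  rintro B S hB ⟨⟨-, -, henc, -⟩, herr, hsec⟩ ⟨q, hC⟩
  set t : Polynomial ℕ := (4 * (S.len + 1)) * S.e with ht
  have hte : ∀ n, t.eval n = (4 * (S.len.eval n + 1)) * S.e.eval n := by
    intro n
    rw [ht]
    simp
  have h5 := hsec (AD S) t (AD_poly h4 henc)
  obtain ⟨hadd, hdom, hmul, hpol, -, hone⟩ := h0
  have h6 := hadd _ _ h5 (hadd _ _ (herr false) (hpol _ (4 * (S.len + 1)) (herr true)))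
  refine hone (3 / 4) (by norm_num) (hdom (fun _ => 3 / 4) _ 1 h6 fun n hn => ?_)
  have h7 := acp_true h3 S n t (hte n)
  have h8 := acp_false h1 h3 hB S (q.eval n) n (fun s hs => hC n hn s hs) t (hte n)
  have e : (4 * (S.len + 1) : Polynomial ℕ).eval n = 4 * (S.len.eval n + 1) := by simp
  rw [e, abs_of_pos (by norm_num : (0:ℝ) < 3 / 4)]
  linarith

end Pool.Agent.Y195.OD
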